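import Pool.Agent.MWGR.StmtsC

namespace Pool.Agent.MWGR.H97

open Pool.Agent.Helper14_MV Pool.Agent.Helper2_MV Pool.Agent.MVO Pool.Agent.MWL Pool.Agent.MWS
  Pool.Agent.MWH Pool.Agent.MWGR

theorem swf : SwfStmt := by
  intro n c η hFE H pre suf a b hab hcl A D W _ _
  obtain ⟨q, w, r, hsuf, hw⟩ := hcl
  obtain ⟨y, hy⟩ := Infinite.exists_notMem_finset (a :: b :: (pre ++ A ++ D ++ suf)).toFinset
  simp only [List.mem_toFinset, List.mem_cons, List.mem_append, not_or] at hy
  obtain ⟨hya, hyb, ⟨⟨hyp, hyA⟩, hyD⟩, hys⟩ := hy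
  have hsub : (q ++ a :: (w ++ b :: r)).Sublist ((pre ++ A) ++ (List.replicate n y ++
      a :: (List.replicate (n + c) y ++ b :: (List.replicate n y ++
        ((D ++ q) ++ a :: (w ++ b :: r)))))) := by
    have e : (pre ++ A) ++ (List.replicate n y ++
      a :: (List.replicate (n + c) y ++ b :: (List.replicate n y ++
        ((D ++ q) ++ a :: (w ++ b :: r))))) =
        ((pre ++ A) ++ (List.replicate n y ++
      a :: (List.replicate (n + c) y ++ b :: (List.replicate n y ++ D)))) ++
        (q ++ a :: (w ++ b :: r)) := by simp [List.append_assoc]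
    rw [e]
    exact List.sublist_append_right _ _
  have h := hFE (pre ++ A) (D ++ q) w r y a b hya hyb hab (by
    intro z hz
    refine (hw z hz).trans ?_
    rw [hsuf]
    exact hsub.count_le z)
  let g : ℕ → List ℕ := fun z => if z = y then W else [z]
  have hk : ∀ L : List ℕ, y ∉ L → L.flatMap g = L := by
    intro L
    induction L with
    | nil => intro _; rfl
    | cons z L ih =>
      intro hL
      rw [List.mem_cons, not_or] at hL
      rw [List.flatMap_cons, ih hL.2]
      have : g z = [z] := if_neg (fun e => hL.1 e.symm)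
      rw [this]; rfl
  have hr : ∀ m, (List.replicate m y).flatMap g = rp m W := by
    intro m
    rw [List.flatMap_replicate]
    have : g y = W := if_pos rfl
    rw [this]; rfl
  have ga : g a = [a] := if_neg (fun e => hya e.symm)
  have gb : g b = [b] := if_neg (fun e => hyb e.symm)
  have hs2 := hk suf hys
  have hsufy : y ∉ q ++ a :: (w ++ b :: r) := by rw [← hsuf]; exact hys
  simp only [List.mem_append, List.mem_cons, not_or] at hsufy
  have h2 := RR.sub g h
  simp only [List.flatMap_append, List.flatMap_cons, hr, ga, gb, hk pre hyp, hk A hyA, hk D hyD,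
    hk q hsufy.1, hk w hsufy.2.2.1, hk r hsufy.2.2.2.2] at h2
  unfold Wd
  rw [hsuf]
  simpa [List.append_assoc] using h2

end Pool.Agent.MWGR.H97
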